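import Pool.Agent.Y718.SupL
import Pool.Agent.Y718.GY

/-!
# Diophantine sets given by points of infinite order on double covers

Every Diophantine subset of `ℚ` can be given by one equation `w² = f(z)`. We consider an arbitrary
polynomial `f` over `ℚ` in `n` variables and those rational solutions with `w ≠ 0` which are
nondegenerate: there is a basis of directions along which `f` has degree at most two, or degree at
most four with a point of infinite order (see `Nondegenerate`). For polynomials of degree at most four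
in each variable these are double covers of `(ℙ¹)ⁿ`: K3 surfaces for `n = 2`, Calabi-Yau varieties for
`n ≥ 3`.

For the sets of the values of a coordinate at the nondegenerate solutions, and more generally for
the sets of the values of a rational function at the points of a finite product of such sets and an
affine space, the closure in `ℝ` has a finite boundary, which consists of algebraic numbers: it is a
finite union of points and closed intervals with algebraic end points. In particular the supremum is
algebraic if it is finite.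

The proof uses the theorem `CalabiYauDoubleCovers` of the problem MP_42de19_nt: the closure of the
set of these points is semialgebraic over `ℚ`.
-/

set_option autoImplicit false

namespace Pool.Agent.Results.MP_b9427a_nt.CalabiYauDoubleCovers

open MvPolynomial Pool.Agent.TH729.SQ Pool.Agent.Y718 Pool.Agent.Y718.SupL Pool.Agent.H581R2

/-- The polynomial `f(z + t v)` in `t`. -/
noncomputable def restriction {n : ℕ} (f : MvPolynomial (Fin n) ℚ) (z v : Fin n → ℚ) :
    Polynomial ℚ :=
  aeval (fun k => Polynomial.C (z k) + Polynomial.C (v k) * Polynomial.X) f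

/-- The polynomial `f` has degree at most `d` on all lines of direction `v`. -/
def DegreeAtMost {n : ℕ} (d : ℕ) (f : MvPolynomial (Fin n) ℚ) (v : Fin n → ℚ) : Prop :=
  ∀ z : Fin n → ℚ, (restriction f z v).natDegree ≤ d

/-- The Jacobian of the curve `s² = q(t)`, where `q` is a polynomial of degree at most `4`. -/
def jacobian (q : Polynomial ℚ) : WeierstrassCurve ℚ where
  a₁ := 0
  a₂ := q.coeff 2
  a₃ := 0
  a₄ := q.coeff 1 * q.coeff 3 - 4 * q.coeff 0 * q.coeff 4
  a₆ := q.coeff 1 ^ 2 * q.coeff 4 + q.coeff 0 * q.coeff 3 ^ 2 -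
    4 * q.coeff 0 * q.coeff 2 * q.coeff 4

/-- The Jacobian is nonsingular, `q(0) = w²` for a rational number `w ≠ 0`, and the difference of
the two points `(0, w)` and `(0, -w)` has infinite order. -/
def InfiniteOrder (q : Polynomial ℚ) : Prop :=
  (jacobian q).Δ ≠ 0 ∧ ∃ (w x y : ℚ) (h : (jacobian q).toAffine.Nonsingular x y),
    w ≠ 0 ∧ w ^ 2 = q.coeff 0 ∧ x = q.coeff 1 ^ 2 / (4 * w ^ 2) - q.coeff 2 ∧
    y = (q.coeff 1 * x + 2 * w ^ 2 * q.coeff 3) / (2 * w) ∧
    ∀ m : ℕ, m ≠ 0 → m • WeierstrassCurve.Affine.Point.some x y h ≠ 0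

/-- The point `z` is nondegenerate: there is a basis `b` of directions of degree at most `4`, such
that each `b k` is of degree at most `2` or the condition of infinite order is satisfied at some
point which differs from `z` by a linear combination of the preceding vectors. -/
def Nondegenerate {n : ℕ} (f : MvPolynomial (Fin n) ℚ) (z : Fin n → ℚ) : Prop :=
  ∃ b : Fin n → Fin n → ℚ, LinearIndependent ℚ b ∧ ∀ k, DegreeAtMost 4 f (b k) ∧
    (DegreeAtMost 2 f (b k) ∨ ∃ c : Fin n → ℚ, (∀ l, k ≤ l → c l = 0) ∧
      InfiniteOrder (restriction f (z + ∑ j, c j • b j) (b k)))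

/-- `S` is the set of the rational points `(w, z)` with `w² = f(z)`, `w ≠ 0`, for which `z` is
nondegenerate, where `f` is a polynomial. -/
def NondegeneratePoints {n : ℕ} (S : Set (Fin (n + 1) → ℚ)) : Prop :=
  ∃ f : MvPolynomial (Fin n) ℚ,
    S = {u | u 0 ≠ 0 ∧ u 0 ^ 2 = eval (fun k => u k.succ) f ∧ Nondegenerate f fun k => u k.succ}

/-- The set of the points whose coordinates in some of `N` variables form a point of a set as in
`NondegeneratePoints`. -/
def Cylinder {N : ℕ} (S : Set (Fin N → ℚ)) : Prop :=
  ∃ (n : ℕ) (e : Fin (n + 1) → Fin N) (S₀ : Set (Fin (n + 1) → ℚ)), Function.Injective e ∧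
    NondegeneratePoints S₀ ∧ S = {y | (fun i => y (e i)) ∈ S₀}

lemma nondegenerate_iff {n : ℕ} (f : MvPolynomial (Fin n) ℚ) (z : Fin n → ℚ) :
    Nondegenerate f z ↔ Pool.Agent.Y718.X.NX f z := by
  have h : ∀ q, InfiniteOrder q ↔ Pool.Agent.Y718.X.Inf q := fun q => Pool.Agent.Y718.X.infO_iff q
  unfold Nondegenerate Pool.Agent.Y718.X.NX
  simp only [h]
  exact Iff.rfl

lemma NondegeneratePoints.sa {n : ℕ} {S : Set (Fin (n + 1) → ℚ)} (h : NondegeneratePoints S) :
    SA (closure (rl S)) := by
  obtain ⟨f, rfl⟩ := h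
  have h1 := Pool.Agent.Y718.X.dcN_SA f
  have h2 : Pool.Agent.Y718.X.dcN f = {u | u 0 ≠ 0 ∧ u 0 ^ 2 = eval (fun k => u k.succ) f ∧
      Nondegenerate f fun k => u k.succ} := by
    ext u
    simp only [Pool.Agent.Y718.X.dcN, nondegenerate_iff]
  rw [h2] at h1
  exact h1

theorem result :
    -- the values of a rational function at the rational points of products
    (∀ (ι κ : Type) [Finite ι] [Finite κ] (N : ℕ) (S : ι → Set (Fin N → ℚ)),
      (∀ j, Cylinder (S j)) →
      ∀ (p q : MvPolynomial ((ι × Fin N) ⊕ κ) ℚ) (D : Set ℚ),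
        D = {t | ∃ (x : ι → Fin N → ℚ) (u : κ → ℚ), (∀ j, x j ∈ S j) ∧
          eval (Sum.elim (fun r => x r.1 r.2) u) q ≠ 0 ∧
          t = eval (Sum.elim (fun r => x r.1 r.2) u) p /
            eval (Sum.elim (fun r => x r.1 r.2) u) q} →
        (frontier (closure (((↑) : ℚ → ℝ) '' D))).Finite ∧
        (∀ x ∈ frontier (closure (((↑) : ℚ → ℝ) '' D)), IsAlgebraic ℚ x) ∧
        (D.Nonempty → BddAbove (((↑) : ℚ → ℝ) '' D) →
          IsAlgebraic ℚ (sSup (((↑) : ℚ → ℝ) '' D)))) ∧
    -- in particular, the sets of the values of a coordinate at the nondegenerate solutions of one equation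
    (∀ (n : ℕ) (S : Set (Fin (n + 1) → ℚ)), NondegeneratePoints S → ∀ (i : Fin (n + 1)) (X : Set ℚ),
      (∀ x : ℚ, x ∈ X ↔ ∃ y ∈ S, y i = x) →
      X.Nonempty → BddAbove (((↑) : ℚ → ℝ) '' X) →
        ¬ Transcendental ℚ (sSup (((↑) : ℚ → ℝ) '' X))) := by
  refine ⟨?_, fun n S hS i Y hY hne hb => coord hS.sa i hY hne hb⟩
  intro ι κ _ _ N S hS p q D hD
  refine vals (fun j => ?_) p q hD
  obtain ⟨n, e, S₀, he, hS₀, hSj⟩ := hS j
  rw [hSj]
  exact cyl_rl hS₀.sa he

end Pool.Agent.Results.MP_b9427a_nt.CalabiYauDoubleCovers
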