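import Pool.Agent.Y718.SupL

/-!
# Diophantine sets given by quadric bundles over the line have algebraic suprema

Every Diophantine subset of `ℚ` can be given by one equation `w² = f(z)` with `deg f ≤ 4`. We
consider the equations `w² = f(x, y₁, …, y_n)`, where `f` is a polynomial over `ℚ` of degree at most
four in `x` and of total degree at most two in `y₁, …, y_n`, without any further hypothesis. For
`n = 1` these are the conic bundle surfaces `w² = A(x) y² + B(x) y + C(x)` with
`deg A, deg B, deg C ≤ 4`.

For the sets of the values of a coordinate at all the rational solutions of such an equation, and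
more generally for the sets of the values of a rational function at the rational points of a finite
product of such varieties and an affine space, the closure in `ℝ` has a finite boundary, which
consists of algebraic numbers: it is a finite union of points and closed intervals with algebraic end
points. In particular the supremum is algebraic if it is finite.

The proof uses the theorem `QuadricBundles` of the problem MP_42de19_nt: the closure of the set of
the rational solutions is semialgebraic over `ℚ`.
-/

set_option autoImplicit false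

namespace Pool.Agent.Results.MP_b9427a_nt.QuadricBundles

open MvPolynomial Pool.Agent.TH729.SQ Pool.Agent.Y718 Pool.Agent.Y718.SupL Pool.Agent.H581R2

/-- The set of the rational solutions `(w, x, y₁, …, y_n)` of an equation `w² = f(x, y₁, …, y_n)`,
where `f` is a polynomial of degree at most four in `x` and of total degree at most two in
`y₁, …, y_n`. -/
def QuadricBundle {n : ℕ} (S : Set (Fin (n + 2) → ℚ)) : Prop :=
  ∃ f : MvPolynomial (Fin (n + 1)) ℚ, f.degreeOf 0 ≤ 4 ∧
    (∀ d ∈ f.support, ∑ j : Fin n, d j.succ ≤ 2) ∧ S = {u | u 0 ^ 2 = eval (fun k => u k.succ) f}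

/-- The set of the points whose coordinates in some of `N` variables form a point of a set as in
`QuadricBundle`. -/
def Cylinder {N : ℕ} (S : Set (Fin N → ℚ)) : Prop :=
  ∃ (n : ℕ) (e : Fin (n + 2) → Fin N) (S₀ : Set (Fin (n + 2) → ℚ)), Function.Injective e ∧
    QuadricBundle S₀ ∧ S = {y | (fun i => y (e i)) ∈ S₀}

lemma QuadricBundle.sa {n : ℕ} {S : Set (Fin (n + 2) → ℚ)} (h : QuadricBundle S) :
    SA (closure (rl S)) := by
  obtain ⟨f, h0, hy, rfl⟩ := h
  exact line_final f h0 hy

theorem result :
    -- the values of a rational function at the rational points of products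
    (∀ (ι κ : Type) [Finite ι] [Finite κ] (N : ℕ) (S : ι → Set (Fin N → ℚ)),
      (∀ j, Cylinder (S j)) →
      ∀ (p q : MvPolynomial ((ι × Fin N) ⊕ κ) ℚ) (D : Set ℚ),
        D = {t | ∃ (x : ι → Fin N → ℚ) (u : κ → ℚ), (∀ j, x j ∈ S j) ∧
          eval (Sum.elim (fun r => x r.1 r.2) u) q ≠ 0 ∧
          t = eval (Sum.elim (fun r => x r.1 r.2) u) p /
            eval (Sum.elim (fun r => x r.1 r.2) u) q} →
        (frontier (closure (((↑) : ℚ → ℝ) '' D))).Finite ∧
        (∀ x ∈ frontier (closure (((↑) : ℚ → ℝ) '' D)), IsAlgebraic ℚ x) ∧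
        (D.Nonempty → BddAbove (((↑) : ℚ → ℝ) '' D) →
          IsAlgebraic ℚ (sSup (((↑) : ℚ → ℝ) '' D)))) ∧
    -- in particular, the sets of the values of a coordinate at the solutions of one equation
    (∀ (n : ℕ) (S : Set (Fin (n + 2) → ℚ)), QuadricBundle S → ∀ (i : Fin (n + 2)) (X : Set ℚ),
      (∀ x : ℚ, x ∈ X ↔ ∃ y ∈ S, y i = x) →
      X.Nonempty → BddAbove (((↑) : ℚ → ℝ) '' X) →
        ¬ Transcendental ℚ (sSup (((↑) : ℚ → ℝ) '' X))) := by
  refine ⟨?_, fun n S hS i Y hY hne hb => coord hS.sa i hY hne hb⟩
  intro ι κ _ _ N S hS p q D hD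
  refine vals (fun j => ?_) p q hD
  obtain ⟨n, e, S₀, he, hS₀, hSj⟩ := hS j
  rw [hSj]
  exact cyl_rl hS₀.sa he

end Pool.Agent.Results.MP_b9427a_nt.QuadricBundles
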