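import Pool.Agent.Y718.SupL
import Pool.Agent.Y718.QuartB

/-!
# Diophantine sets given by smooth quartic double covers have algebraic suprema

Every Diophantine subset of `ℚ` can be given by one equation `w² = f(z)` with `deg f ≤ 4`. We
consider the equations `w² = f(z₁, …, z_n)`, `n ≥ 2`, such that the quartic hypersurface defined by
`f` in `ℙⁿ` is smooth, and their rational solutions with `w ≠ 0`: the rational points outside the
branch divisor of a del Pezzo surface of degree two (`n = 2`), a quartic double solid (`n = 3`), ….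
If `f = 0` has only finitely many rational solutions, we admit also all solutions (for `n = 2` this
is always true by Faltings's theorem).

For the sets of the values of a coordinate at these solutions, and more generally for the sets of the
values of a rational function at the points of a finite product of such sets and an affine space,
the closure in `ℝ` has a finite boundary, which consists of algebraic numbers: it is a finite union
of points and closed intervals with algebraic end points. In particular the supremum is algebraic if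
it is finite.

The proof uses the theorem `QuarticDoubleCovers` of the problem MP_42de19_nt: the closure of the set
of these points is semialgebraic over `ℚ`.
-/

set_option autoImplicit false

namespace Pool.Agent.Results.MP_b9427a_nt.QuarticDoubleCovers

open MvPolynomial Pool.Agent.TH729.SQ Pool.Agent.Y718 Pool.Agent.Y718.SupL Pool.Agent.H581R2

/-- The partial derivatives of the form have no common zero over the complex numbers besides the
origin. -/
def SmoothForm {n : ℕ} (F : MvPolynomial (Fin (n + 1)) ℚ) : Prop :=
  ∀ y : Fin (n + 1) → ℂ, (∀ i, aeval y (pderiv i F) = 0) → y = 0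

/-- Let `F` be a form of degree four in `n + 1 ≥ 3` variables with a smooth hypersurface. `S` is the
set of the rational points `u = (w, z₁, …, z_n)` with `w² = F(1, z₁, …, z_n)` and `w ≠ 0`, or the set
of all rational points of this equation if there are only finitely many with `w = 0`. The vector
`(1, z₁, …, z_n)` is `Function.update u 0 1`. -/
def DoubleCover {n : ℕ} (S : Set (Fin (n + 1) → ℚ)) : Prop :=
  2 ≤ n ∧ ∃ F : MvPolynomial (Fin (n + 1)) ℚ, F.IsHomogeneous 4 ∧ SmoothForm F ∧
    (S = {u | u 0 ^ 2 = eval (Function.update u 0 1) F ∧ u 0 ≠ 0} ∨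
      {u : Fin (n + 1) → ℚ | u 0 = 0 ∧ eval (Function.update u 0 1) F = 0}.Finite ∧
        S = {u | u 0 ^ 2 = eval (Function.update u 0 1) F})

/-- The set of the points whose coordinates in some of `N` variables form a point of a set as in
`DoubleCover`. -/
def Cylinder {N : ℕ} (S : Set (Fin N → ℚ)) : Prop :=
  ∃ (n : ℕ) (e : Fin (n + 1) → Fin N) (S₀ : Set (Fin (n + 1) → ℚ)), Function.Injective e ∧
    DoubleCover S₀ ∧ S = {y | (fun i => y (e i)) ∈ S₀}

lemma upd_eq {n : ℕ} (u : Fin (n + 1) → ℚ) :
    (ic 0 1 fun k => u k.succ : Fin (n + 1) → ℚ) = Function.update u 0 1 := by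
  funext k
  refine Fin.cases ?_ (fun j => ?_) k
  · rw [Function.update_self]
    exact ic_same 0 1 _
  · rw [Function.update_of_ne (Fin.succ_ne_zero j)]
    exact ic_above 0 1 _ j

lemma DoubleCover.sa {n : ℕ} {S : Set (Fin (n + 1) → ℚ)} (h : DoubleCover S) :
    SA (closure (rl S)) := by
  obtain ⟨hn, F, hF, hsm, rfl | ⟨hfin, rfl⟩⟩ := h
  · have h1 := chart_SA hF (smooth_of hsm) hn 0
    have h2 : X0 (deh F 0) = {u | u 0 ^ 2 = eval (Function.update u 0 1) F ∧ u 0 ≠ 0} := by
      ext u
      simp only [X0, Set.mem_ofPred_eq, deh_eval, upd_eq]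
      exact and_comm
    rw [h2] at h1
    exact h1
  · have h0 : {z : Fin n → ℚ | eval z (deh F 0) = 0}.Finite := by
      have hinj : Function.Injective (fun z : Fin n → ℚ => (Fin.cons 0 z : Fin (n + 1) → ℚ)) := by
        intro z z' h
        exact Fin.cons_injective2.right 0 h
      refine (hfin.preimage hinj.injOn).subset ?_
      intro z hz
      refine ⟨rfl, ?_⟩
      rw [← upd_eq]
      have hz : eval z (deh F 0) = 0 := hz
      rw [deh_eval] at hz
      simpa using hz
    have h1 := full_SA (deh F 0) (chart_SA hF (smooth_of hsm) hn 0) (by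
      have h3 : rl {z : Fin n → ℚ | eval z (deh F 0) = 0} =
          {x : Fin n → ℝ | ∃ r ∈ {z : Fin n → ℚ | eval z (deh F 0) = 0}, ∀ i, x i = (r i : ℝ)} := by
        ext x
        constructor
        · rintro ⟨r, hr, rfl⟩
          exact ⟨r, hr, fun _ => rfl⟩
        · rintro ⟨r, hr, hx⟩
          exact ⟨r, hr, funext hx⟩
      rw [h3]
      exact Pool.Agent.TH729.SQ.SA.closure (SA.finite_rat h0))
    simp only [deh_eval, upd_eq] at h1
    exact h1

theorem result :
    -- the values of a rational function at the rational points of products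
    (∀ (ι κ : Type) [Finite ι] [Finite κ] (N : ℕ) (S : ι → Set (Fin N → ℚ)),
      (∀ j, Cylinder (S j)) →
      ∀ (p q : MvPolynomial ((ι × Fin N) ⊕ κ) ℚ) (D : Set ℚ),
        D = {t | ∃ (x : ι → Fin N → ℚ) (u : κ → ℚ), (∀ j, x j ∈ S j) ∧
          eval (Sum.elim (fun r => x r.1 r.2) u) q ≠ 0 ∧
          t = eval (Sum.elim (fun r => x r.1 r.2) u) p /
            eval (Sum.elim (fun r => x r.1 r.2) u) q} →
        (frontier (closure (((↑) : ℚ → ℝ) '' D))).Finite ∧
        (∀ x ∈ frontier (closure (((↑) : ℚ → ℝ) '' D)), IsAlgebraic ℚ x) ∧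
        (D.Nonempty → BddAbove (((↑) : ℚ → ℝ) '' D) →
          IsAlgebraic ℚ (sSup (((↑) : ℚ → ℝ) '' D)))) ∧
    -- in particular, the sets of the values of a coordinate at the points of one double cover
    (∀ (n : ℕ) (S : Set (Fin (n + 1) → ℚ)), DoubleCover S → ∀ (i : Fin (n + 1)) (X : Set ℚ),
      (∀ x : ℚ, x ∈ X ↔ ∃ y ∈ S, y i = x) →
      X.Nonempty → BddAbove (((↑) : ℚ → ℝ) '' X) →
        ¬ Transcendental ℚ (sSup (((↑) : ℚ → ℝ) '' X))) := by
  refine ⟨?_, fun n S hS i Y hY hne hb => coord hS.sa i hY hne hb⟩
  intro ι κ _ _ N S hS p q D hD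
  refine vals (fun j => ?_) p q hD
  obtain ⟨n, e, S₀, he, hS₀, hSj⟩ := hS j
  rw [hSj]
  exact cyl_rl hS₀.sa he

end Pool.Agent.Results.MP_b9427a_nt.QuarticDoubleCovers
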