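import Pool.Agent.Y718.SupL

/-!
# Diophantine sets given by equations of degree at most four in each variable

Every Diophantine subset of `ℚ` can be given by one equation `w² = f(z)` with `deg f ≤ 4`. We
consider the polynomials `f` over `ℚ` of degree at most four in each of the variables `z₁, …, z_n`
and the rational solutions of `w² = f(z)` which satisfy algebraic conditions of nondegeneracy for all
variables (see `Nondegenerate`); for example conic bundles over `(ℙ¹)^(n-1)`, and all solutions with
`w ≠ 0` of a general equation with `deg f ≤ 4`.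

For the sets of the values of a coordinate at the nondegenerate solutions, and more generally for
the sets of the values of a rational function at the points of a finite product of such sets and an
affine space, the closure in `ℝ` has a finite boundary, which consists of algebraic numbers: it is a
finite union of points and closed intervals with algebraic end points. In particular the supremum is
algebraic if it is finite.

The proof uses the theorem `SeveralParameters` of the problem MP_42de19_nt: the closure of the set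
of these points is semialgebraic over `ℚ`.
-/

set_option autoImplicit false

namespace Pool.Agent.Results.MP_b9427a_nt.SeveralParameters

open MvPolynomial Pool.Agent.TH729.SQ Pool.Agent.Y718 Pool.Agent.Y718.SupL Pool.Agent.H581R2

/-- The polynomial `f` has degree at most two along each line of direction `v`. -/
def QuadraticAlong {n : ℕ} (f : MvPolynomial (Fin n) ℚ) (v : Fin n → ℚ) : Prop :=
  ∀ z : Fin n → ℚ, ∃ A B : ℚ, ∀ s : ℚ, eval (z + s • v) f = A * s ^ 2 + B * s + eval z f

/-- The polynomial `f(z + s v)` in `s`. -/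
noncomputable def restriction {n : ℕ} (f : MvPolynomial (Fin n) ℚ) (z v : Fin n → ℚ) :
    Polynomial ℚ :=
  aeval (fun k => Polynomial.C (z k) + Polynomial.C (v k) * Polynomial.X) f

/-- The cubic covariant of the pencil of lines through `z`. -/
noncomputable def B {n : ℕ} (f : MvPolynomial (Fin n) ℚ) (z v : Fin n → ℚ) : ℚ :=
  (restriction f z v).coeff 1 ^ 3 -
    4 * (restriction f z v).coeff 0 * (restriction f z v).coeff 1 * (restriction f z v).coeff 2 +
    8 * (restriction f z v).coeff 0 ^ 2 * (restriction f z v).coeff 3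

/-- The quartic covariant of the pencil of lines through `z`. -/
noncomputable def T {n : ℕ} (f : MvPolynomial (Fin n) ℚ) (z v : Fin n → ℚ) : ℚ :=
  ((restriction f z v).coeff 1 ^ 2 -
    4 * (restriction f z v).coeff 0 * (restriction f z v).coeff 2) ^ 2 -
    64 * (restriction f z v).coeff 0 ^ 3 * (restriction f z v).coeff 4

/-- The point `z` is nondegenerate for the `i`-th variable: `f` has degree at most two in this
variable, or there is a nondegenerate quadratic direction, or a nondegenerate plane in a space of
directions along which the degree of `f` is at most four and which contains the `i`-th direction. -/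
def Nondegenerate {n : ℕ} (f : MvPolynomial (Fin n) ℚ) (i : Fin n) (z : Fin n → ℚ) : Prop :=
  (f.degreeOf i ≤ 2 ∨ ∃ v : Fin n → ℚ, v i = 0 ∧ QuadraticAlong f v ∧
    (∃ A B : ℚ, A ≠ 0 ∧ B ^ 2 - 4 * A * eval z f ≠ 0 ∧
      ∀ s : ℚ, eval (z + s • v) f = A * s ^ 2 + B * s + eval z f) ∧
    ¬ ∃ c : ℚ, ∀ s : ℚ, eval (z + s • v) (pderiv i f) = c * eval (z + s • v) f) ∨
  ∃ V : Submodule ℚ (Fin n → ℚ), Pi.single i 1 ∈ V ∧
    (∀ z, ∀ v ∈ V, (restriction f z v).natDegree ≤ 4) ∧
    ∃ v ∈ V, ∃ u ∈ V, ∀ α β γ : ℚ, (∀ s t : ℚ, (α * s + β * t) * B f z (s • v + t • u) =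
      γ * T f z (s • v + t • u)) → α = 0 ∧ β = 0 ∧ γ = 0

/-- `S` is the set of the rational points `(w, z)` with `w² = f(z)` for which `z` is nondegenerate
for all variables and, if `w = 0`, for which `f(z + s v) = A s² + B s` with `B ≠ 0` for some
direction `v`, where `f` is a polynomial of degree at most four in each variable. -/
def NondegeneratePoints {n : ℕ} (S : Set (Fin (n + 1) → ℚ)) : Prop :=
  ∃ f : MvPolynomial (Fin n) ℚ, (∀ i, f.degreeOf i ≤ 4) ∧
    S = {u | u 0 ^ 2 = eval (fun k => u k.succ) f ∧ (∀ i, Nondegenerate f i fun k => u k.succ) ∧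
      (u 0 ≠ 0 ∨ ∃ (v : Fin n → ℚ) (A B : ℚ), B ≠ 0 ∧
        ∀ s : ℚ, eval ((fun k => u k.succ) + s • v) f = A * s ^ 2 + B * s)}

/-- The set of the points whose coordinates in some of `N` variables form a point of a set as in
`NondegeneratePoints`. -/
def Cylinder {N : ℕ} (S : Set (Fin N → ℚ)) : Prop :=
  ∃ (n : ℕ) (e : Fin (n + 1) → Fin N) (S₀ : Set (Fin (n + 1) → ℚ)), Function.Injective e ∧
    NondegeneratePoints S₀ ∧ S = {y | (fun i => y (e i)) ∈ S₀}

lemma NondegeneratePoints.sa {n : ℕ} {S : Set (Fin (n + 1) → ℚ)} (h : NondegeneratePoints S) :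
    SA (closure (rl S)) := by
  obtain ⟨f, hf, rfl⟩ := h
  exact gen2_final f hf

theorem result :
    -- the values of a rational function at the rational points of products
    (∀ (ι κ : Type) [Finite ι] [Finite κ] (N : ℕ) (S : ι → Set (Fin N → ℚ)),
      (∀ j, Cylinder (S j)) →
      ∀ (p q : MvPolynomial ((ι × Fin N) ⊕ κ) ℚ) (D : Set ℚ),
        D = {t | ∃ (x : ι → Fin N → ℚ) (u : κ → ℚ), (∀ j, x j ∈ S j) ∧
          eval (Sum.elim (fun r => x r.1 r.2) u) q ≠ 0 ∧
          t = eval (Sum.elim (fun r => x r.1 r.2) u) p /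
            eval (Sum.elim (fun r => x r.1 r.2) u) q} →
        (frontier (closure (((↑) : ℚ → ℝ) '' D))).Finite ∧
        (∀ x ∈ frontier (closure (((↑) : ℚ → ℝ) '' D)), IsAlgebraic ℚ x) ∧
        (D.Nonempty → BddAbove (((↑) : ℚ → ℝ) '' D) →
          IsAlgebraic ℚ (sSup (((↑) : ℚ → ℝ) '' D)))) ∧
    -- in particular, the sets of the values of a coordinate at the nondegenerate solutions of one equation
    (∀ (n : ℕ) (S : Set (Fin (n + 1) → ℚ)), NondegeneratePoints S → ∀ (i : Fin (n + 1)) (X : Set ℚ),
      (∀ x : ℚ, x ∈ X ↔ ∃ y ∈ S, y i = x) →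
      X.Nonempty → BddAbove (((↑) : ℚ → ℝ) '' X) →
        ¬ Transcendental ℚ (sSup (((↑) : ℚ → ℝ) '' X))) := by
  refine ⟨?_, fun n S hS i Y hY hne hb => coord hS.sa i hY hne hb⟩
  intro ι κ _ _ N S hS p q D hD
  refine vals (fun j => ?_) p q hD
  obtain ⟨n, e, S₀, he, hS₀, hSj⟩ := hS j
  rw [hSj]
  exact cyl_rl hS₀.sa he

end Pool.Agent.Results.MP_b9427a_nt.SeveralParameters
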